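import Mathlib
import Pool.Agent.H964.LF.Stm

set_option autoImplicit false

namespace Pool.Agent.H124.LF

open Pool.Agent.H964.LF

noncomputable section

/-- flip the coordinates in a set -/
def fl {d : ℕ} (ε : Fin d → Bool) (A : Finset (Fin d)) : Fin d → Bool :=
  fun j => xor (ε j) (decide (j ∈ A))

theorem fl_ne {d : ℕ} (ε : Fin d → Bool) {A A' : Finset (Fin d)} {a : Fin d} (h : a ∈ A)
    (h' : a ∉ A') : fl ε A ≠ fl ε A' := by
  intro e
  have := congrFun e a
  simp [fl, h, h'] at this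

theorem fl_ins {d : ℕ} (ε : Fin d → Bool) {A : Finset (Fin d)} {a : Fin d} (h : a ∉ A) :
    fl (fl ε A) {a} = fl ε (insert a A) := by
  funext j
  by_cases hj : j = a
  · subst hj; simp [fl, h]
  · simp [fl, hj]

theorem fl_empty {d : ℕ} (ε : Fin d → Bool) : fl ε ∅ = ε := by
  funext j; simp [fl]

theorem eq_fl {d : ℕ} (ε ε' : Fin d → Bool) (S : Finset (Fin d))
    (hS : S = Finset.univ.filter fun j => ε j ≠ ε' j) : ε' = fl ε S := by
  funext j
  by_cases hj : ε j = ε' j
  · simp [fl, hS, hj]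
  · have : j ∈ S := by simp [hS, hj]
    simp only [fl, this, decide_true, Bool.xor_true]
    cases h1 : ε j <;> cases h2 : ε' j <;> simp_all

theorem sq_two {a b c d e : ℝ} (h1 : (b - a) ^ 2 ≤ d) (h2 : (c - b) ^ 2 ≤ e) :
    (c - a) ^ 2 ≤ 2 * (d + e) := by nlinarith [sq_nonneg ((b - a) - (c - b))]

theorem sq_three {a b c z d e f : ℝ} (h1 : (b - a) ^ 2 ≤ d) (h2 : (c - b) ^ 2 ≤ e)
    (h3 : (z - c) ^ 2 ≤ f) : (z - a) ^ 2 ≤ 3 * (d + e + f) := by
  nlinarith [sq_nonneg ((b - a) - (c - b)), sq_nonneg ((b - a) - (z - c)),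
    sq_nonneg ((c - b) - (z - c))]

theorem cube {d : ℕ} (g : (Fin d → Bool) → ℝ) (P : (Fin d → Bool) → Prop)
    (hP : ∀ ε ε', ¬ P ε → ¬ P ε' → ε = ε') (D : Fin d → ℝ) (hD0 : ∀ j, 0 ≤ D j)
    (hD : ∀ ε j, P ε → P (fl ε {j}) → (g (fl ε {j}) - g ε) ^ 2 ≤ D j)
    (ε ε' : Fin d → Bool) (h : P ε) (h' : P ε')
    (hc : (Finset.univ.filter fun j => ε j ≠ ε' j).card ≤ 3) :
    (g ε' - g ε) ^ 2 ≤ 3 * ∑ j, D j := by
  classical
  set S := Finset.univ.filter fun j => ε j ≠ ε' j with hS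
  have hE : ε' = fl ε S := eq_fl ε ε' S hS
  have hT : 0 ≤ ∑ j, D j := Finset.sum_nonneg fun j _ => hD0 j
  have hsub : ∀ A : Finset (Fin d), ∑ j ∈ A, D j ≤ ∑ j, D j := fun A =>
    Finset.sum_le_sum_of_subset_of_nonneg (Finset.subset_univ _) fun j _ _ => hD0 j
  have step : ∀ (A : Finset (Fin d)) (a : Fin d), a ∉ A → P (fl ε A) → P (fl ε (insert a A)) →
      (g (fl ε (insert a A)) - g (fl ε A)) ^ 2 ≤ D a := by
    intro A a ha h1 h2
    have := hD (fl ε A) a h1 (by rw [fl_ins ε ha]; exact h2)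
    rwa [fl_ins ε ha] at this
  have e0 : P (fl ε ∅) := by rw [fl_empty]; exact h
  have hSP : P (fl ε S) := by rw [← hE]; exact h'
  have two : ∀ a b : Fin d, a ≠ b → P (fl ε {b, a}) → P (fl ε {a}) →
      (g (fl ε {b, a}) - g ε) ^ 2 ≤ 2 * (D a + D b) := by
    intro a b hab h2 h1
    have s1 := step ∅ a (by simp) e0 (by simpa using h1)
    have s2 := step {a} b (by simpa using hab.symm) h1 h2
    rw [fl_empty] at s1
    exact sq_two s1 s2
  rcases (show S.card = 0 ∨ S.card = 1 ∨ S.card = 2 ∨ S.card = 3 by omega) with hk | hk | hk | hk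
  · have : S = ∅ := Finset.card_eq_zero.mp hk
    rw [hE, this, fl_empty]
    nlinarith
  · obtain ⟨a, ha⟩ := Finset.card_eq_one.mp hk
    have s1 := step ∅ a (by simp) e0 (by rw [show insert a (∅ : Finset (Fin d)) = S by rw [ha]; rfl]; exact hSP)
    rw [show insert a (∅ : Finset (Fin d)) = S by rw [ha]; rfl, fl_empty, ← hE] at s1
    have := hsub {a}
    rw [Finset.sum_singleton] at this
    linarith
  · obtain ⟨a, b, hab, ha⟩ := Finset.card_eq_two.mp hk
    have hsum := hsub {a, b}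
    rw [Finset.sum_pair hab] at hsum
    by_cases h1 : P (fl ε {a})
    · have := two a b hab (by rw [Finset.pair_comm, ← ha]; exact hSP) h1
      rw [Finset.pair_comm, ← ha, ← hE] at this
      linarith
    · have h2 : P (fl ε {b}) := by
        by_contra h2
        exact fl_ne ε (A := {a}) (A' := {b}) (a := a) (by simp) (by simpa using hab)
          (hP _ _ h1 h2)
      have := two b a hab.symm (by rw [← ha]; exact hSP) h2
      rw [← ha, ← hE] at this
      linarith
  · obtain ⟨a, b, c, hab, hac, hbc, ha⟩ := Finset.card_eq_three.mp hk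
    have hsum := hsub {a, b, c}
    rw [Finset.sum_insert (by simp [hab, hac]), Finset.sum_pair hbc] at hsum
    have three : ∀ x y z : Fin d, x ≠ y → x ≠ z → y ≠ z → S = {z, y, x} → P (fl ε {x}) →
        P (fl ε {y, x}) → (g ε' - g ε) ^ 2 ≤ 3 * (D x + D y + D z) := by
      intro x y z hxy hxz hyz hs h1 h2
      have s1 := step ∅ x (by simp) e0 (by simpa using h1)
      have s2 := step {x} y (by simpa using hxy.symm) h1 h2
      have s3 := step {y, x} z (by simp [hxz.symm, hyz.symm]) h2 (by rw [← hs]; exact hSP)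
      rw [fl_empty] at s1
      rw [← hs, ← hE] at s3
      exact sq_three s1 s2 s3
    by_cases h1 : P (fl ε {a}) ∧ P (fl ε {b, a})
    · have := three a b c hab hac hbc (by rw [ha]; ext j; simp; tauto) h1.1 h1.2
      linarith
    · have hb : P (fl ε {b}) := by
        by_contra h2
        rcases not_and_or.mp h1 with h3 | h3
        · exact fl_ne ε (A := {a}) (A' := {b}) (a := a) (by simp) (by simpa using hab)
            (hP _ _ h3 h2)
        · exact fl_ne ε (A := {b, a}) (A' := {b}) (a := a) (by simp) (by simpa using hab)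
            (hP _ _ h3 h2)
      have hb2 : P (fl ε {c, b}) := by
        by_contra h2
        rcases not_and_or.mp h1 with h3 | h3
        · exact fl_ne ε (A := {a}) (A' := {c, b}) (a := a) (by simp) (by simp [hab, hac])
            (hP _ _ h3 h2)
        · exact fl_ne ε (A := {b, a}) (A' := {c, b}) (a := a) (by simp) (by simp [hab, hac])
            (hP _ _ h3 h2)
      have := three b c a hbc hab.symm hac.symm (by rw [ha]; ext j; simp; tauto) hb hb2
      linarith

theorem sum_ch {d : ℕ} (M : ℕ) (f : Site d → ℝ) :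
    ∑ x ∈ Grid d (M + 1), f x = ∑ q ∈ Grid d M, ∑ ε : Fin d → Bool, f (ch q ε) := by
  rw [← Finset.sum_product']
  symm
  refine Finset.sum_nbij' (fun p => ch p.1 p.2)
    (fun x => (fun i => x i / 2, fun i => decide (x i % 2 = 1))) ?_ ?_ ?_ ?_ ?_
  · rintro ⟨q, ε⟩ h
    simp only [Finset.mem_product, Grid, Fintype.mem_piFinset, Finset.mem_range] at h ⊢
    intro i
    have := h.1 i
    simp only [ch]
    rw [pow_succ]
    split_ifs <;> omega
  · intro x h
    simp only [Finset.mem_product, Grid, Fintype.mem_piFinset, Finset.mem_range,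
      Finset.mem_univ, and_true] at h ⊢
    intro i
    have := h i
    rw [pow_succ] at this
    omega
  · rintro ⟨q, ε⟩ h
    simp only [Prod.mk.injEq]
    constructor
    · funext i
      simp only [ch]
      split_ifs <;> omega
    · funext i
      simp only [ch]
      by_cases hε : ε i = true
      · simp [hε]
      · simp [hε]
  · intro x h
    funext i
    simp only [ch]
    by_cases h2 : x i % 2 = 1
    · simp [h2]; omega
    · simp [h2]; omega
  · intro p h
    rfl

open Classical in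
/-- energy of one edge -/
def en {d : ℕ} (B : Finset (Site d)) (w : Site d → ℝ) (N ℓ : ℕ) (x : Site d) (i : Fin d) : ℝ :=
  if x i + 1 < 2 ^ N ∧ ¬ bd B ℓ x ∧ ¬ bd B ℓ (sx x i) then
      (w (rep B ℓ (sx x i)) - w (rep B ℓ x)) ^ 2 else 0

theorem SS_eq {d : ℕ} (B : Finset (Site d)) (w : Site d → ℝ) (J ℓ : ℕ) :
    SS B w J ℓ = ∑ q ∈ Grid d (J - ℓ), ∑ i : Fin d, en B w (J - ℓ) ℓ q i := rfl

theorem en_nonneg {d : ℕ} (B : Finset (Site d)) (w : Site d → ℝ) (N ℓ : ℕ) (x : Site d)
    (i : Fin d) : 0 ≤ en B w N ℓ x i := by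
  unfold en; split_ifs
  · positivity
  · exact le_rfl

/-- energy inside a cell, direction `j` -/
def In {d : ℕ} (B : Finset (Site d)) (w : Site d → ℝ) (N ℓ : ℕ) (q : Site d) (j : Fin d) : ℝ :=
  ∑ ε : Fin d → Bool, if ε j = false then en B w N ℓ (ch q ε) j else 0

/-- energy across -/
def Cr {d : ℕ} (B : Finset (Site d)) (w : Site d → ℝ) (N ℓ : ℕ) (q : Site d) (j : Fin d) : ℝ :=
  ∑ ε : Fin d → Bool, if ε j = true then en B w N ℓ (ch q ε) j else 0

theorem In_nonneg {d : ℕ} (B : Finset (Site d)) (w : Site d → ℝ) (N ℓ : ℕ) (q : Site d)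
    (j : Fin d) : 0 ≤ In B w N ℓ q j := by
  unfold In
  refine Finset.sum_nonneg fun ε _ => ?_
  split_ifs
  · exact en_nonneg ..
  · exact le_rfl

theorem Cr_nonneg {d : ℕ} (B : Finset (Site d)) (w : Site d → ℝ) (N ℓ : ℕ) (q : Site d)
    (j : Fin d) : 0 ≤ Cr B w N ℓ q j := by
  unfold Cr
  refine Finset.sum_nonneg fun ε _ => ?_
  split_ifs
  · exact en_nonneg ..
  · exact le_rfl

theorem en_le_In {d : ℕ} (B : Finset (Site d)) (w : Site d → ℝ) (N ℓ : ℕ) (q : Site d)
    (j : Fin d) (ε : Fin d → Bool) (h : ε j = false) :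
    en B w N ℓ (ch q ε) j ≤ In B w N ℓ q j := by
  unfold In
  have := Finset.single_le_sum (f := fun ε : Fin d → Bool =>
    if ε j = false then en B w N ℓ (ch q ε) j else 0) (s := Finset.univ)
    (fun ε _ => by
      split_ifs
      · exact en_nonneg ..
      · exact le_rfl) (Finset.mem_univ ε)
  simpa [h] using this

theorem en_le_Cr {d : ℕ} (B : Finset (Site d)) (w : Site d → ℝ) (N ℓ : ℕ) (q : Site d)
    (j : Fin d) (ε : Fin d → Bool) (h : ε j = true) :
    en B w N ℓ (ch q ε) j ≤ Cr B w N ℓ q j := by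
  unfold Cr
  have := Finset.single_le_sum (f := fun ε : Fin d → Bool =>
    if ε j = true then en B w N ℓ (ch q ε) j else 0) (s := Finset.univ)
    (fun ε _ => by
      split_ifs
      · exact en_nonneg ..
      · exact le_rfl) (Finset.mem_univ ε)
  simpa [h] using this

theorem sx_ch_in {d : ℕ} (q : Site d) (ε : Fin d → Bool) (j : Fin d) (h : ε j = false) :
    sx (ch q ε) j = ch q (fl ε {j}) := by
  funext i
  by_cases hi : i = j
  · subst hi; simp [sx, ch, fl, h]
  · simp [sx, ch, fl, hi]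

theorem sx_ch_cr {d : ℕ} (q : Site d) (ε : Fin d → Bool) (j : Fin d) (h : ε j = true) :
    sx (ch q ε) j = ch (sx q j) (fl ε {j}) := by
  funext i
  by_cases hi : i = j
  · subst hi; simp [sx, ch, fl, h]; omega
  · simp [sx, ch, fl, hi]

theorem fl_fl {d : ℕ} (ε : Fin d → Bool) (A : Finset (Fin d)) : fl (fl ε A) A = ε := by
  funext j; simp [fl]

theorem SS_split {d : ℕ} (B : Finset (Site d)) (w : Site d → ℝ) (M ℓ : ℕ) :
    ∑ x ∈ Grid d (M + 1), ∑ i : Fin d, en B w (M + 1) ℓ x i =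
      (∑ q ∈ Grid d M, ∑ j, In B w (M + 1) ℓ q j) + ∑ q ∈ Grid d M, ∑ j, Cr B w (M + 1) ℓ q j := by
  rw [sum_ch M, ← Finset.sum_add_distrib]
  refine Finset.sum_congr rfl fun q _ => ?_
  rw [Finset.sum_comm, ← Finset.sum_add_distrib]
  refine Finset.sum_congr rfl fun j _ => ?_
  unfold In Cr
  rw [← Finset.sum_add_distrib]
  refine Finset.sum_congr rfl fun ε _ => ?_
  cases h : ε j <;> simp

section main

variable {d : ℕ} (B : Finset (Site d)) (w : Site d → ℝ) (M ℓ : ℕ)

open Classical in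
/-- the label of the representative child -/
def ce (q : Site d) : Fin d → Bool :=
  if bd B ℓ (ch q fun _ => false) then (fun i => decide (i.val = 0)) else fun _ => false

theorem rep_ce (q : Site d) : rep B (ℓ + 1) q = rep B ℓ (ch q (ce B ℓ q)) := by
  unfold ce
  simp only [rep]
  split_ifs <;> rfl

theorem uniq {q : Site d} (h : ¬ bd B (ℓ + 1) q) (ε ε' : Fin d → Bool)
    (h1 : ¬ ¬ bd B ℓ (ch q ε)) (h2 : ¬ ¬ bd B ℓ (ch q ε')) : ε = ε' := by
  by_contra hne
  exact h ⟨ε, ε', hne, not_not.mp h1, not_not.mp h2⟩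

theorem ce_good (hd : 3 ≤ d) {q : Site d} (h : ¬ bd B (ℓ + 1) q) :
    ¬ bd B ℓ (ch q (ce B ℓ q)) := by
  unfold ce
  split_ifs with h0
  · intro h1
    have := uniq B ℓ h _ _ (not_not.mpr h0) (not_not.mpr h1)
    have := congrFun this ⟨0, by omega⟩
    simp at this
  · exact h0

theorem ce_off (q : Site d) (j : Fin d) (hj : j.val ≠ 0) : ce B ℓ q j = false := by
  unfold ce
  split_ifs
  · simp [hj]
  · rfl

theorem inner {q : Site d} (hq : q ∈ Grid d M) (h : ¬ bd B (ℓ + 1) q) (ε ε' : Fin d → Bool)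
    (h1 : ¬ bd B ℓ (ch q ε)) (h2 : ¬ bd B ℓ (ch q ε'))
    (hc : (Finset.univ.filter fun j => ε j ≠ ε' j).card ≤ 3) :
    (w (rep B ℓ (ch q ε')) - w (rep B ℓ (ch q ε))) ^ 2 ≤ 3 * ∑ j, In B w (M + 1) ℓ q j := by
  refine cube (fun ε => w (rep B ℓ (ch q ε))) (fun ε => ¬ bd B ℓ (ch q ε))
    (fun ε ε' => uniq B ℓ h ε ε') (fun j => In B w (M + 1) ℓ q j)
    (fun j => In_nonneg ..) ?_ ε ε' h1 h2 hc
  have hq' : ∀ j, q j < 2 ^ M := by
    simpa [Grid, Fintype.mem_piFinset] using hq
  have key : ∀ (ε : Fin d → Bool) (j : Fin d), ε j = false → ¬ bd B ℓ (ch q ε) →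
      ¬ bd B ℓ (ch q (fl ε {j})) →
      (w (rep B ℓ (ch q (fl ε {j}))) - w (rep B ℓ (ch q ε))) ^ 2 ≤ In B w (M + 1) ℓ q j := by
    intro ε j hj g1 g2
    refine le_trans (le_of_eq ?_) (en_le_In B w (M + 1) ℓ q j ε hj)
    unfold en
    rw [sx_ch_in q ε j hj, if_pos]
    refine ⟨?_, g1, g2⟩
    have := hq' j
    simp only [ch, hj]
    rw [pow_succ]
    simp
    omega
  intro ε j g1 g2
  cases hj : ε j
  · exact key ε j hj g1 g2
  · have := key (fl ε {j}) j (by simp [fl, hj]) g2 (by rw [fl_fl]; exact g1)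
    rw [fl_fl] at this
    rw [← neg_sub, neg_sq]
    exact this

/-- label of a set -/
def vs {d : ℕ} (A : Finset (Fin d)) : Fin d → Bool := fun j => decide (j ∈ A)

theorem vs_ne {d : ℕ} {A A' : Finset (Fin d)} {a : Fin d} (h : a ∈ A)
    (h' : a ∉ A') : vs A ≠ vs A' := by
  intro e
  have := congrFun e a
  simp [vs, h, h'] at this

theorem term (hd : 3 ≤ d) {q : Site d} (hq : q ∈ Grid d M) (i : Fin d)
    (hq2 : sx q i ∈ Grid d M) (h : ¬ bd B (ℓ + 1) q) (h' : ¬ bd B (ℓ + 1) (sx q i)) :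
    (w (rep B (ℓ + 1) (sx q i)) - w (rep B (ℓ + 1) q)) ^ 2 ≤
      9 * (∑ j, In B w (M + 1) ℓ q j + Cr B w (M + 1) ℓ q i +
        ∑ j, In B w (M + 1) ℓ (sx q i) j) := by
  classical
  have h2 : 1 < (Finset.univ.erase i).card := by
    rw [Finset.card_erase_of_mem (Finset.mem_univ _), Finset.card_univ, Fintype.card_fin]; omega
  obtain ⟨a, ha, b, hb, hab⟩ := Finset.one_lt_card.mp h2
  have hai : a ≠ i := Finset.ne_of_mem_erase ha
  have hbi : b ≠ i := Finset.ne_of_mem_erase hb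
  have ex : ∃ Y : Finset (Fin d), i ∉ Y ∧ Y.card ≤ 1 ∧ ¬ bd B ℓ (ch q (vs (insert i Y))) ∧
      ¬ bd B ℓ (ch (sx q i) (vs Y)) := by
    by_contra hcon
    push Not at hcon
    have c0 := hcon ∅ (by simp) (by simp)
    have c1 := hcon {a} (by simpa using hai.symm) (by simp)
    have c2 := hcon {b} (by simpa using hbi.symm) (by simp)
    have U1 := uniq B ℓ h
    have U2 := uniq B ℓ h'
    have d01 : vs (insert i {a}) ≠ vs (insert i (∅ : Finset (Fin d))) :=
      vs_ne (a := a) (by simp) (by simpa using hai)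
    have d02 : vs (insert i {b}) ≠ vs (insert i (∅ : Finset (Fin d))) :=
      vs_ne (a := b) (by simp) (by simpa using hbi)
    have d12 : vs (insert i {a}) ≠ vs (insert i ({b} : Finset (Fin d))) :=
      vs_ne (a := a) (by simp) (by simp [hai, hab])
    have f01 : vs {a} ≠ vs (∅ : Finset (Fin d)) := vs_ne (a := a) (by simp) (by simp)
    have f02 : vs {b} ≠ vs (∅ : Finset (Fin d)) := vs_ne (a := b) (by simp) (by simp)
    have f12 : vs {a} ≠ vs ({b} : Finset (Fin d)) := vs_ne (a := a) (by simp) (by simpa using hab)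
    by_cases g0 : bd B ℓ (ch q (vs (insert i ∅))) <;>
    by_cases g1 : bd B ℓ (ch q (vs (insert i {a}))) <;>
    by_cases g2 : bd B ℓ (ch q (vs (insert i {b})))
    · exact d01 (U1 _ _ (not_not.mpr g1) (not_not.mpr g0))
    · exact d01 (U1 _ _ (not_not.mpr g1) (not_not.mpr g0))
    · exact d02 (U1 _ _ (not_not.mpr g2) (not_not.mpr g0))
    · exact f12 (U2 _ _ (not_not.mpr (c1 g1)) (not_not.mpr (c2 g2)))
    · exact d12 (U1 _ _ (not_not.mpr g1) (not_not.mpr g2))
    · exact f02 (U2 _ _ (not_not.mpr (c2 g2)) (not_not.mpr (c0 g0)))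
    · exact f01 (U2 _ _ (not_not.mpr (c1 g1)) (not_not.mpr (c0 g0)))
    · exact f12 (U2 _ _ (not_not.mpr (c1 g1)) (not_not.mpr (c2 g2)))
  obtain ⟨Y, hiY, hY, gx, gy⟩ := ex
  have hq' : ∀ j, q j < 2 ^ M := by
    simpa [Grid, Fintype.mem_piFinset] using hq
  have hq2' : ∀ j, sx q i j < 2 ^ M := by
    simpa [Grid, Fintype.mem_piFinset] using hq2
  -- first part
  have dist : ∀ (q : Site d) (Z : Finset (Fin d)), Z.card ≤ 2 →
      (Finset.univ.filter fun j => ce B ℓ q j ≠ vs Z j).card ≤ 3 := by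
    intro q Z hZ
    refine (Finset.card_le_card (t := insert ⟨0, by omega⟩ Z) ?_).trans
      ((Finset.card_insert_le _ _).trans (by omega))
    intro j hj
    simp only [Finset.mem_filter, Finset.mem_univ, true_and] at hj
    by_contra hn
    simp only [Finset.mem_insert, not_or] at hn
    refine hj ?_
    rw [ce_off B ℓ q j (fun h0 => hn.1 (Fin.ext h0))]
    simp [vs, hn.2]
  have A1 := inner B w M ℓ hq h (ce B ℓ q) (vs (insert i Y)) (ce_good B ℓ hd h) gx
    (dist q _ ((Finset.card_insert_le _ _).trans (by omega)))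
  have A3 := inner B w M ℓ hq2 h' (ce B ℓ (sx q i)) (vs Y) (ce_good B ℓ hd h') gy
    (dist _ _ (by omega))
  have hfl : fl (vs (insert i Y)) {i} = vs Y := by
    funext j
    by_cases hj : j = i
    · subst hj; simp [fl, vs, hiY]
    · simp [fl, vs, hj]
  have A2 : (w (rep B ℓ (ch (sx q i) (vs Y))) - w (rep B ℓ (ch q (vs (insert i Y))))) ^ 2 ≤
      Cr B w (M + 1) ℓ q i := by
    refine le_trans (le_of_eq ?_) (en_le_Cr B w (M + 1) ℓ q i (vs (insert i Y)) (by simp [vs]))
    unfold en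
    rw [sx_ch_cr q _ i (by simp [vs]), hfl, if_pos]
    refine ⟨?_, gx, gy⟩
    have h1 := hq2' i
    simp only [sx, Pi.add_apply, Pi.single_eq_same] at h1
    simp only [ch]
    rw [pow_succ]
    split_ifs <;> omega
  rw [rep_ce, rep_ce]
  have e3 : (w (rep B ℓ (ch (sx q i) (ce B ℓ (sx q i)))) - w (rep B ℓ (ch (sx q i) (vs Y)))) ^ 2 ≤
      3 * ∑ j, In B w (M + 1) ℓ (sx q i) j := by
    rw [← neg_sub, neg_sq]; exact A3
  have := sq_three A1 A2 e3
  have hCr := Cr_nonneg B w (M + 1) ℓ q i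
  linarith

end main

theorem t_DT1 : S_DT1 := by
  intro d B w J ℓ hd hJ
  obtain ⟨M, rfl⟩ : ∃ M, J = M + (ℓ + 1) := ⟨J - (ℓ + 1), by omega⟩
  rw [SS_eq, SS_eq, show M + (ℓ + 1) - (ℓ + 1) = M by omega,
    show M + (ℓ + 1) - ℓ = M + 1 by omega, SS_split]
  set I : Site d → ℝ := fun q => ∑ j, In B w (M + 1) ℓ q j with hI
  have hI0 : ∀ q, 0 ≤ I q := fun q => Finset.sum_nonneg fun j _ => In_nonneg ..
  have step : ∀ q ∈ Grid d M, ∀ i : Fin d, en B w M (ℓ + 1) q i ≤
      9 * (I q + Cr B w (M + 1) ℓ q i + if q i + 1 < 2 ^ M then I (sx q i) else 0) := by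
    intro q hq i
    unfold en
    split_ifs with h1 h2 h2
    · have hq' : ∀ j, q j < 2 ^ M := by
        simpa [Grid, Fintype.mem_piFinset] using hq
      refine term B w M ℓ hd hq i ?_ h1.2.1 h1.2.2
      simp only [Grid, Fintype.mem_piFinset, Finset.mem_range]
      intro j
      by_cases hj : j = i
      · subst hj; simpa [sx] using h1.1
      · simpa [sx, hj] using hq' j
    · exact absurd h1.1 h2
    · have := Cr_nonneg B w (M + 1) ℓ q i
      have := hI0 q
      have := hI0 (sx q i)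
      positivity
    · have := Cr_nonneg B w (M + 1) ℓ q i
      have := hI0 q
      positivity
  have sub : ∀ i : Fin d, ∑ q ∈ Grid d M, (if q i + 1 < 2 ^ M then I (sx q i) else 0) ≤
      ∑ q ∈ Grid d M, I q := by
    intro i
    rw [← Finset.sum_filter]
    have inj : ∀ q q' : Site d, sx q i = sx q' i → q = q' := by
      intro q q' h
      exact add_right_cancel h
    rw [← Finset.sum_image (f := I) (s := (Grid d M).filter fun q => q i + 1 < 2 ^ M)
      (g := fun q => sx q i) (fun q _ q' _ h => inj q q' h)]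
    refine Finset.sum_le_sum_of_subset_of_nonneg ?_ fun q _ _ => hI0 q
    intro x hx
    simp only [Finset.mem_image, Finset.mem_filter, Grid, Fintype.mem_piFinset,
      Finset.mem_range] at hx ⊢
    obtain ⟨q, ⟨hq, h1⟩, rfl⟩ := hx
    intro j
    by_cases hj : j = i
    · subst hj; simpa [sx] using h1
    · simpa [sx, hj] using hq j
  have tot : ∑ q ∈ Grid d M, ∑ i : Fin d, en B w M (ℓ + 1) q i ≤
      9 * (2 * d * ∑ q ∈ Grid d M, I q + ∑ q ∈ Grid d M, ∑ i, Cr B w (M + 1) ℓ q i) := by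
    calc ∑ q ∈ Grid d M, ∑ i : Fin d, en B w M (ℓ + 1) q i
        ≤ ∑ q ∈ Grid d M, ∑ i : Fin d,
          9 * (I q + Cr B w (M + 1) ℓ q i + if q i + 1 < 2 ^ M then I (sx q i) else 0) :=
          Finset.sum_le_sum fun q hq => Finset.sum_le_sum fun i _ => step q hq i
      _ = 9 * (d * ∑ q ∈ Grid d M, I q + ∑ q ∈ Grid d M, ∑ i, Cr B w (M + 1) ℓ q i +
          ∑ i : Fin d, ∑ q ∈ Grid d M, (if q i + 1 < 2 ^ M then I (sx q i) else 0)) := by
          simp only [← Finset.mul_sum, Finset.sum_add_distrib, Finset.sum_const,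
            Finset.card_univ, Fintype.card_fin, nsmul_eq_mul]
          rw [Finset.sum_comm (s := Grid d M) (t := Finset.univ)
            (f := fun q i => if q i + 1 < 2 ^ M then I (sx q i) else 0)]
      _ ≤ 9 * (d * ∑ q ∈ Grid d M, I q + ∑ q ∈ Grid d M, ∑ i, Cr B w (M + 1) ℓ q i +
          ∑ i : Fin d, ∑ q ∈ Grid d M, I q) := by
          have := Finset.sum_le_sum fun (i : Fin d) (_ : i ∈ Finset.univ) => sub i
          linarith
      _ = _ := by
          rw [Finset.sum_const, Finset.card_univ, Fintype.card_fin, nsmul_eq_mul]; ring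
  refine tot.trans ?_
  have h2 : (2 * d : ℝ) ≤ 2 ^ d := by
    have : ∀ m : ℕ, 3 ≤ m → 2 * m ≤ 2 ^ m := by
      intro m hm
      induction m, hm using Nat.le_induction with
      | base => norm_num
      | succ m hm ih => rw [pow_succ]; omega
    exact_mod_cast this d hd
  have h1 : (1 : ℝ) ≤ 2 ^ d := one_le_pow₀ (by norm_num)
  have hA : 0 ≤ ∑ q ∈ Grid d M, I q := Finset.sum_nonneg fun q _ => hI0 q
  have hB : 0 ≤ ∑ q ∈ Grid d M, ∑ i, Cr B w (M + 1) ℓ q i :=
    Finset.sum_nonneg fun q _ => Finset.sum_nonneg fun i _ => Cr_nonneg ..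
  nlinarith [mul_le_mul_of_nonneg_right h2 hA, mul_le_mul_of_nonneg_right h1 hB]

end

end Pool.Agent.H124.LF
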